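import Pool.Agent.Q231.LP.Low
import Pool.Agent.Q231.LP.Incl

/-!
# ET0L is a proper subfamily of the left permitting E0L languages
-/

namespace Pool.Agent.Results.MP_ab0e6d_lc.ET0LProperInLP

open Q231.LS Q231.LP

/-- Every ET0L language is generated by a left permitting E0L grammar, and some language generated
by a propagating left permitting E0L grammar over a two-letter alphabet is generated by no ET0L
grammar (over the same or over any other finite alphabet containing the two letters). -/
theorem result :
    (∀ (A : Type) [Finite A] (G : ET0L A), ∃ G' : LPE0L A, G'.Lang = G.Lang) ∧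
    (∃ G : LPE0L AB, G.Propagating ∧ (∀ H : ET0L AB, H.Lang ≠ G.Lang) ∧
      ∀ (A' : Type) [Finite A'] (f : AB → A'), Function.Injective f →
        ∀ H : ET0L A', H.Lang ≠ (List.map f) '' G.Lang) := by
  refine ⟨fun A _ G => ⟨lpg G, lang_eq G⟩, gramP, propagating, ?_,
    fun A' _ f hf H => Q231.LP.main f hf H⟩
  intro H
  have h := Q231.LP.main (fun x : AB => x) (fun x y h => h) H
  rwa [List.map_id_fun', Set.image_id] at h

end Pool.Agent.Results.MP_ab0e6d_lc.ET0LProperInLP
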